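import Pool.Agent.U297.BA.Main

/-!
# Ax-Schanuel for the Gamma function in codimension at most one, with its case of equality, and the bialgebraic sets

Let `f_1, …, f_n` be analytic functions on a nonempty connected open set `Ω` of a complex space of finite dimension;
some of them can be constant, but not a pole of `Γ`. Let `r` be the rank of their differentials at a point (so the
image `Z` of `f` has dimension at least `r`), and `N` the number of classes modulo integers of the nonconstant ones.
The transcendence degree of `ℂ(f, Γ(f))` is at least `r + min (N, r + 1)` and at most `2 N`. So for `N ≤ r + 1` the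
inequality of Ax-Schanuel type holds under the weakest possible condition. In particular the transcendence degree is at
least `2 r`, with equality if and only if `N = r`.

Moreover the transcendence degrees of `ℂ(f)` and of `ℂ(Γ(f))`, which are the dimensions of the Zariski closures of `Z` and
of its image under `Γ`, have a sum of at least `2 r`, with equality if and only if there are exactly `r` different
functions among the nonconstant `f_i`. So the bialgebraic sets for `Γ`, algebraic or only analytic, are those given by
equations `z_i = c` and `z_i = z_j`.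

The proof uses the theorem `Pool.Agent.TH814.GD.ax` of the starting library (the lower bound when no `f_i` is constant and
no two of them differ by an integer), which was not handed in before.
-/

set_option autoImplicit false

namespace Pool.Agent.Results.MP_26ad15_nt.BialgebraicSets

open Module
open Pool.Agent.U297.BA

/-- **Result.** See the description of the file. `TrdegGe D h k`: the transcendence degree over `ℂ` of the functions
`h i` on the set `D` is at least `k`; `Dom Ω f`: the points of `Ω` at which no `f i` is a pole of `Γ`; `Gam f`: the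
functions `Γ(f i)`; `rk f x`: the rank of the differentials at `x`; `Reps Ω f a`: the functions `f (a j)` represent the
classes modulo integers of the nonconstant `f i`, one for each class; `Distinct Ω f r`: there are exactly `r` different
functions among the nonconstant `f i`. -/
theorem result (E : Type) [NormedAddCommGroup E] [NormedSpace ℂ E] [FiniteDimensional ℂ E] (n : ℕ) (Ω : Set E)
    (hΩ : IsOpen Ω) (hc : IsPreconnected Ω) (hne : Ω.Nonempty) (f : Fin n → E → ℂ)
    (hf : ∀ i, AnalyticOnNhd ℂ (f i) Ω) (hpole : ∀ i, ∀ m : ℕ, ¬ ∀ x ∈ Ω, f i x = -m)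
    (r : ℕ) (hr : ∃ x ∈ Ω, rk f x = r) :
    (∃ (N : ℕ) (a : Fin N → Fin n), Reps Ω f a) ∧
    (∀ (N : ℕ) (a : Fin N → Fin n), Reps Ω f a → r ≤ N ∧
      TrdegGe (Dom Ω f) (Sum.elim f (Gam f)) (r + min N (r + 1)) ∧
      ¬ TrdegGe (Dom Ω f) (Sum.elim f (Gam f)) (2 * N + 1)) ∧
    TrdegGe (Dom Ω f) (Sum.elim f (Gam f)) (2 * r) ∧
    (¬ TrdegGe (Dom Ω f) (Sum.elim f (Gam f)) (2 * r + 1) ↔ ∃ a : Fin r → Fin n, Reps Ω f a) ∧
    (∀ k l : ℕ, ¬ TrdegGe (Dom Ω f) f (k + 1) → ¬ TrdegGe (Dom Ω f) (Gam f) (l + 1) →
      2 * r ≤ k + l ∧ (k + l = 2 * r → k = r ∧ l = r ∧ Distinct Ω f r)) ∧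
    (Distinct Ω f r → ¬ TrdegGe (Dom Ω f) f (r + 1) ∧ ¬ TrdegGe (Dom Ω f) (Gam f) (r + 1)) := by
  have h1 : ∀ (N : ℕ) (a : Fin N → Fin n), Reps Ω f a → r ≤ N ∧
      TrdegGe (Dom Ω f) (Sum.elim f (Gam f)) (r + min N (r + 1)) ∧
      ¬ TrdegGe (Dom Ω f) (Sum.elim f (Gam f)) (2 * N + 1) := by
    intro N a ha
    refine ⟨?_, ?_, upper hne ha⟩
    · obtain ⟨x, hx, h⟩ := hr
      rw [← h]
      exact rk_le hΩ ha hx
    · rw [add_comm]
      exact lower_ge hΩ hc hf hpole ha hr
  obtain ⟨N, a, ha⟩ := exists_reps Ω f
  obtain ⟨h2, h3, h4⟩ := h1 N a ha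
  refine ⟨⟨N, a, ha⟩, h1, trdegGe_mono (by omega) h3, ⟨fun h => ?_, ?_⟩, fun k l hk hl =>
    bialg hΩ hc hne hf hpole hr hk hl, fun h => distinct_small h⟩
  · have h5 : N = r := by
      by_contra h6
      exact h (trdegGe_mono (by omega) h3)
    subst h5
    exact ⟨a, ha⟩
  · rintro ⟨b, hb⟩
    exact (h1 r b hb).2.2

end Pool.Agent.Results.MP_26ad15_nt.BialgebraicSets
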