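import Pool.Agent.U536.CF.TN
import Pool.Agent.U951.TR.GammaE

/-!
# π and values of the Gamma function at all fractional parameters near pairs with large common factors with the values of
# multiplicative functions

Let `α_j > 0` and `γ_j` be real numbers such that no nonzero integer vector `m` satisfies both `∑ m_j α_j = 0` and
`∑ m_j α_j log α_j = 0` (for instance: the `α_j` are linearly independent over `ℚ`; then for `γ = 0` and rational `q ≠ 0` the
numbers `α_j q` satisfy the condition (H) of the problem). Let `F_0`, `F_1` be positive multiplicative functions of at most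
polynomial growth such that `F_i p ≤ M p` for the large primes `p`, with different values at different large primes; for example
Euler's function or the sum of the divisors. Let `b₁ < 1` and `0 ≤ c₁ < 2 b₁ - 1`. For all pairs `m` in `[1, N]²` but
`N² exp (-(log N)^c₁)`, for EVERY pair `w` of integers `w_i ≥ exp ((log N)^b₁)` with `gcd(w_i, F_i(m_i)) ≥ w_l^ρ` for all `i`, `l`
(for example all the large divisors of comparable size, and their multiples by small integers), and for ALL fractions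
`q = (u_0 w_0 + v_0) / (u_1 w_1 + v_1)` with `u_i ≠ 0`, `|u_i|, |v_i| ≤ w_l^η` for some `l`: if `q` is in `[a, b]`, then every
nonzero integral polynomial of degree at most `d` in each variable with coefficients of absolute value at most `H ^ A`,
`H = max |u_i w_i + v_i|`, takes at the `n + 1` numbers `π`, `Γ(α_j q + γ_j)` a value of absolute value larger than `H ^ (-B)`.

Proof. The starting theorem `RationalParameters` counts the exceptional rational numbers with denominators at most `T`, for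
polynomials whose heights are bounded in terms of `T`. This gives a bound for the number of the pairs of integers of absolute
value `≤ X`, not in lowest terms, whose quotients are exceptional for the heights belonging to their own larger entry
(`Pool.Agent.U951.TR.Frac`: common divisors, and counting by halves). The divisors of the values of the `F_i` are treated by
the tool `Pool.Agent.U536.CF` of helper536 (the part of `m` with few prime factors, Hölder's inequality for the divisor function).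
-/

set_option autoImplicit false

namespace Pool.Agent.Results.MP_26ad15_nt.CommonFactors

open Pool.Agent.N733.TG (LM lm_totient lm_sigma)
open Pool.Agent.U536.CF (CommonT common_near commonT_of_dvd)
open Pool.Agent.Results.MP_26ad15_nt.RationalParameters (values)

/-- the larger absolute value of the entries -/
def H (x : Fin 2 → ℤ) : ℕ := Finset.univ.sup fun i => (x i).natAbs

/-- the quotient of the entries -/
def quotient (x : Fin 2 → ℤ) : ℚ := (x 0 : ℚ) / (x 1 : ℚ)

/-- If the second entry of `x` is not `0` and the quotient `q` of `x` is in `[a, b]`, then every nonzero polynomial in `n + 1`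
variables of degree at most `d` in each variable with integer coefficients of absolute value at most `H ^ A` takes at `π`,
`Γ(α_j q + γ_j)` a value of absolute value larger than `H ^ (-B)`. -/
def Free {n : ℕ} (α γ : Fin n → ℝ) (d : ℕ) (a b A B : ℝ) (x : Fin 2 → ℤ) : Prop :=
  x 1 ≠ 0 → a ≤ quotient x → quotient x ≤ b → ∀ P : MvPolynomial (Option (Fin n)) ℤ, P ≠ 0 → (∀ y, P.degreeOf y ≤ d) →
    (∀ s, |((P.coeff s : ℤ) : ℝ)| ≤ (H x : ℝ) ^ A) → (H x : ℝ) ^ (-B) < |MvPolynomial.aeval (values α γ (quotient x)) P|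

/-- **Theorem.** Let `a < b`, `α_j > 0`, `α_j a + γ_j > 0`, let no nonzero integer vector `m` satisfy both `∑ m_j α_j = 0` and
`∑ m_j α_j log α_j = 0`, and let `d` and `A ≥ 0` be given. There are `B`, `η > 0` and `0 < ρ < 1` such that for all pairs `F` of
functions with `LM`, `b₁ < 1`, `0 ≤ c₁ < 2 b₁ - 1` and all large `N`, for all `m` in `[1, N]²` but `N² exp (-(log N)^c₁)` and for
EVERY pair `w` of integers `w_i ≥ exp ((log N)^b₁)` with `gcd(w_i, F_i(m_i)) ≥ w_l^ρ` for all `i`, `l`, ALL pairs `u_i w_i + v_i`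
with `u_i ≠ 0`, `|u_i|, |v_i| ≤ w_l^η` for some `l` are free. Pairs of divisors `w_i ≥ exp ((log N)^b)` of the `F_i(m_i)` with
`w_l^ρ ≤ w_i` for all `i`, `l` are such pairs `w`. Euler's function and the sum of the divisors are examples of the `F_i`. -/
theorem result :
    (∀ (n d : ℕ) (α γ : Fin n → ℝ), (∀ j, 0 < α j) →
      (∀ m : Fin n → ℤ, ∑ j, (m j : ℝ) * α j = 0 → ∑ j, (m j : ℝ) * (α j * Real.log (α j)) = 0 → m = 0) →
      ∀ a b A : ℝ, a < b → (∀ j, 0 < α j * a + γ j) → 0 ≤ A → ∃ B η ρ : ℝ, 0 < η ∧ 0 < ρ ∧ ρ < 1 ∧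
      ∀ F : Fin 2 → ℕ → ℕ, (∀ i, LM (F i)) → ∀ b₁ c₁ : ℝ, b₁ < 1 → 0 ≤ c₁ → c₁ < 2 * b₁ - 1 →
        ∃ N₀ : ℕ, ∀ N : ℕ, N₀ ≤ N →
          ({m : Fin 2 → ℕ | (∀ i, 1 ≤ m i ∧ m i ≤ N) ∧ ¬ ∀ w : Fin 2 → ℕ, CommonT F b₁ ρ N m w →
            ∀ u v : Fin 2 → ℤ, (∃ l, ∀ i, u i ≠ 0 ∧ |(u i : ℝ)| ≤ (w l : ℝ) ^ η ∧ |(v i : ℝ)| ≤ (w l : ℝ) ^ η) →
              Free α γ d a b A B (fun i => u i * (w i : ℤ) + v i)}.ncard : ℝ) ≤
            (N : ℝ) ^ 2 * Real.exp (-(Real.log N ^ c₁))) ∧
    (LM Nat.totient ∧ LM (fun m => ∑ d ∈ m.divisors, d)) ∧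
    ∀ (k : ℕ) (F : Fin k → ℕ → ℕ) (b ρ : ℝ) (N : ℕ) (m w : Fin k → ℕ), (∀ i, Real.exp (Real.log N ^ b) ≤ (w i : ℝ)) →
      (∀ i, w i ∣ F i (m i)) → (∀ i j, (w j : ℝ) ^ ρ ≤ (w i : ℝ)) → CommonT F b ρ N m w := by
  refine ⟨?_, ⟨lm_totient, lm_sigma⟩, fun k F b ρ N m w h1 h2 h3 => commonT_of_dvd h1 h2 h3⟩
  intro n d α γ hα hH a b A hab ha hA
  obtain ⟨B, C, -, h, -⟩ := Pool.Agent.U951.TR.Gam.input d α γ hα hH hab ha hA
  obtain ⟨η, ρ, hη, hρ0, hρ1, hF⟩ := common_near (k := 2) (by norm_num) (Pool.Agent.U951.TR.Gam.cn_pos n d)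
  refine ⟨B, η, ρ, hη, hρ0, hρ1, fun F hLM b₁ c₁ hb₁ hc₁ hcb => ?_⟩
  obtain ⟨N₀, hN₀⟩ := hF F hLM C b₁ c₁ hb₁ hc₁ hcb
  refine ⟨N₀, fun N hN => ?_⟩
  refine le_trans ?_ (hN₀ N hN _ h)
  refine Nat.cast_le.2 (Set.ncard_le_ncard ?_ ?_)
  · rintro m ⟨hm, hnot⟩
    refine ⟨hm, fun hall => hnot fun w hw u v huv => ?_⟩
    by_contra hcon
    refine hall w hw u v huv ?_
    unfold Free at hcon
    push Not at hcon
    obtain ⟨h0, h1, h1', P, h2, h3, h4, h5⟩ := hcon
    exact ⟨h0, ⟨h1, h1'⟩, P, h2, h3, h4, h5⟩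
  · apply (Set.Finite.pi' fun _ : Fin 2 => Set.finite_Icc 1 N).subset
    rintro m ⟨hm, -⟩ i
    exact hm i

end Pool.Agent.Results.MP_26ad15_nt.CommonFactors
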