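import Pool.Agent.U449.BV.VU
import Pool.Agent.U951.TR.GammaE

/-!
# π and values of the Gamma function at all fractional parameters near the coordinates of polynomials on arbitrary sets

Let `α_j > 0` and `γ_j` be real numbers such that no nonzero integer vector `m` satisfies both `∑ m_j α_j = 0` and
`∑ m_j α_j log α_j = 0` (for instance: the `α_j` are linearly independent over `ℚ`; then for `γ = 0` and rational `q ≠ 0` the
numbers `α_j q` satisfy the condition (H) of the problem). Let `c = 1 / (2 ((d + 1)^(n + 1) + 1))`, `κ ≥ 0` and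
`2 - c + 2 κ < δ ≤ 2`. Let `p` be a large prime, `f(x, y)` ANY polynomial of bounded degree over the field of `p²` elements with a
monomial which contains both variables (for example `f = x y`), let `S`, `S'` be ARBITRARY subsets of this field with at least
`p ^ δ` elements, and `g`, `h` ARBITRARY functions. For all the pairs `(s, s')` in `S × S'`, apart from a proportion of at most
`p ^ (-r)`, and for ALL pairs `x` of integers at a distance of at most `p ^ κ` from the pair of the least residues of the two
coordinates of `f(s, s') + g(s) + h(s')`: if `q = x_0 / x_1` is in `[a, b]`, then every nonzero integral polynomial of degree at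
most `d` in each variable with coefficients of absolute value at most `H ^ A`, `H = max |x_i|`, takes at the `n + 1` numbers `π`,
`Γ(α_j q + γ_j)` a value of absolute value larger than `H ^ (-B)`. More generally, this holds for the values `F(s, s')` of all
vector functions of two variables with few coincidences (`RareV`), on arbitrary finite sets.

Since the sets and the functions `g` and `h` are arbitrary, the pairs have no arithmetic structure, and a pair may be taken by
very many `(s, s')`. So the number of the exceptions does not give the result directly. Proof: the starting theorem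
`RationalParameters` counts the exceptional rational numbers with denominators at most `T`; this gives a bound for the pairs of
integers, not in lowest terms, whose quotients are exceptional for the heights belonging to their own larger entry
(`Pool.Agent.U951.TR.Frac`). Then the tool `Pool.Agent.U449.BV` of helper449: the inequality of Cauchy and Schwarz; for
most pairs `s, t` the difference `F(s, s') - F(t, s')` is small for few `s'`.
-/

set_option autoImplicit false

namespace Pool.Agent.Results.MP_26ad15_nt.MixedPolynomials

open Finset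
open Pool.Agent.U449.BV (RareV OnProductsV on_products_int_saving coordinates)
open Pool.Agent.Results.MP_26ad15_nt.RationalParameters (values)

/-- the larger absolute value of the entries -/
def H (x : Fin 2 → ℤ) : ℕ := Finset.univ.sup fun i => (x i).natAbs

/-- the quotient of the entries -/
def quotient (x : Fin 2 → ℤ) : ℚ := (x 0 : ℚ) / (x 1 : ℚ)

/-- If the second entry of `x` is not `0` and the quotient `q` of `x` is in `[a, b]`, then every nonzero polynomial in `n + 1`
variables of degree at most `d` in each variable with integer coefficients of absolute value at most `H ^ A` takes at `π`,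
`Γ(α_j q + γ_j)` a value of absolute value larger than `H ^ (-B)`. -/
def Free {n : ℕ} (α γ : Fin n → ℝ) (d : ℕ) (a b A B : ℝ) (x : Fin 2 → ℤ) : Prop :=
  x 1 ≠ 0 → a ≤ quotient x → quotient x ≤ b → ∀ P : MvPolynomial (Option (Fin n)) ℤ, P ≠ 0 → (∀ y, P.degreeOf y ≤ d) →
    (∀ s, |((P.coeff s : ℤ) : ℝ)| ≤ (H x : ℝ) ^ A) → (H x : ℝ) ^ (-B) < |MvPolynomial.aeval (values α γ (quotient x)) P|

/-- ALL pairs `x` of integers with `|x_i - y_i| ≤ W` for all `i` are free. -/
def Near {n : ℕ} (α γ : Fin n → ℝ) (d : ℕ) (a b A B : ℝ) (W : ℝ) (y : Fin 2 → ℝ) : Prop :=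
  ∀ x : Fin 2 → ℤ, (∀ i, |(x i : ℝ) - y i| ≤ W) → Free α γ d a b A B x

/-- **Theorem.** Let `a < b`, `α_j > 0`, `α_j a + γ_j > 0`, let no nonzero integer vector `m` satisfy both `∑ m_j α_j = 0` and
`∑ m_j α_j log α_j = 0`, and let `d` and `A ≥ 0` be given. There is `B` such that for all `κ ≥ 0`, with
`c = 1 / (2 ((d + 1)^(n + 1) + 1))`, the property `Near`, with windows of length `X ^ κ`, holds for almost all values of functions
of two variables with values in the plane and few coincidences, on arbitrary finite sets of at least `X ^ δ` elements,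
`2 - c + 2 κ < δ ≤ 2` (`OnProductsV`).
The tuples of the least residues modulo `p` of the coordinates (with respect to a basis over the field of `p` elements) of
`f(a, b) + g(a) + h(b)` in a field of `p ^ k` elements are such a function, with `X = p`, for all polynomials `f` over this
field with a monomial which contains both variables, arbitrary functions `g` and `h`, and arbitrary finite subsets. -/
theorem result :
    (∀ (n d : ℕ) (α γ : Fin n → ℝ), (∀ j, 0 < α j) →
      (∀ m : Fin n → ℤ, ∑ j, (m j : ℝ) * α j = 0 → ∑ j, (m j : ℝ) * (α j * Real.log (α j)) = 0 → m = 0) →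
      ∀ a b A : ℝ, a < b → (∀ j, 0 < α j * a + γ j) → 0 ≤ A → ∃ B : ℝ, ∀ κ : ℝ, 0 ≤ κ →
        OnProductsV 2 (2 - 1 / (2 * (((d : ℝ) + 1) ^ (n + 1) + 1)) + 2 * κ) κ (Near α γ d a b A B)) ∧
    ∀ (p : ℕ) [Fact p.Prime] (k : ℕ) (K : Type) [Field K] [Algebra (ZMod p) K] (e : Module.Basis (Fin k) (ZMod p) K)
      (d : ℕ) (f : MvPolynomial (Fin 2) K), f.totalDegree ≤ d → (∃ m ∈ f.support, m 0 ≠ 0 ∧ m 1 ≠ 0) →
      ∀ (g h : K → K) (A B : Finset K),
        RareV d A B (fun a b i => (((e.repr (MvPolynomial.eval ![a, b] f + g a + h b) i).val : ℕ) : ℝ)) := by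
  refine ⟨fun n d α γ hα hH a b A hab ha hA => ?_, coordinates⟩
  obtain ⟨B, C, -, h, -⟩ := Pool.Agent.U951.TR.Gam.input d α γ hα hH hab ha hA
  refine ⟨B, fun κ hκ => ?_⟩
  have key := on_products_int_saving (k := 2) (Ω := Unit)
    (fun _ => Pool.Agent.U951.TR.Gam.BadPair α γ d a b A B) (c := Pool.Agent.U951.TR.Gam.cn n d)
    (C := C) hκ (fun _ X hX => h X hX)
  rw [min_eq_left (Pool.Agent.U951.TR.Gam.cn_le n d)] at key
  have hFree : ∀ x : Fin 2 → ℤ, x ∉ Pool.Agent.U951.TR.Gam.BadPair α γ d a b A B → Free α γ d a b A B x := by
    intro x hx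
    by_contra hcon
    refine hx ?_
    unfold Free at hcon
    push Not at hcon
    obtain ⟨h0, h1, h1', P, h2, h3, h4, h5⟩ := hcon
    exact ⟨h0, ⟨h1, h1'⟩, P, h2, h3, h4, h5⟩
  have key2 := key.mono (P' := fun _ : Unit => Near α γ d a b A B) id (fun _ W y _ h' x hx => hFree x (h' x hx))
  intro δ hδ hδ1 d'
  obtain ⟨ρ, hρ, X₀, hX₀⟩ := key2 δ (by
    have : (((2 : ℕ) : ℝ) - Pool.Agent.U951.TR.Gam.cn n d + ((2 : ℕ) : ℝ) * κ) =
      2 - 1 / (2 * (((d : ℝ) + 1) ^ (n + 1) + 1)) + 2 * κ := by
      unfold Pool.Agent.U951.TR.Gam.cn
      push_cast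
      ring
    rw [this]
    exact hδ) hδ1 d'
  exact ⟨ρ, hρ, X₀, fun X hX α β S S' F hS hS' hF hR => hX₀ X hX () α β S S' F hS hS' hF hR⟩

end Pool.Agent.Results.MP_26ad15_nt.MixedPolynomials
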