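import Pool.Agent.U405.RS.G5
import Pool.Agent.U951.TR.GammaE

/-!
# π and values of the Gamma function at parameters which are fractions of values of multiplicative functions over thin sets

Let `α_j > 0` and `γ_j` be real numbers such that no nonzero integer vector `m` satisfies both `∑ m_j α_j = 0` and
`∑ m_j α_j log α_j = 0` (for instance: the `α_j` are linearly independent over `ℚ`; then for `γ = 0` and rational `q ≠ 0` the
numbers `α_j q` satisfy the condition (H) of the problem). Let `F_0`, `F_1` be positive multiplicative functions of at most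
polynomial growth which for each `a ≥ 1` are injective at the powers `p ^ a` of the large primes and at most `M p ^ a` there; for
example Euler's function or the sum of the divisors. We show: for almost all pairs `m` in a product of two thin sets (shifted
primes `p + a_i`, `p ≤ x`, or intervals `(u, u + h]`, `x^τ ≤ h ≤ x`) and `q = F_0(m_0) / F_1(m_1)`, for instance
`q = φ(p - 1) / σ(p' + 2)` with primes `p`, `p'`: if `q` is in `[a, b]`, then the `n + 1` numbers `π`, `Γ(α_j q + γ_j)` satisfy no
polynomial relation, not even approximately, of degree at most `d` in each variable with coefficients of absolute value at most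
`H ^ A`, `H = max F_i(m_i)`: the value is larger than `H ^ (-B)`.

Proof. The starting theorem `RationalParameters` counts the exceptional rational numbers with denominators at most `T`, for
polynomials whose heights are bounded in terms of `T`. This gives a bound for the number of the pairs of natural numbers `≤ X`, not
in lowest terms, whose quotients are exceptional for the heights belonging to their own larger entry (`Pool.Agent.U951.TR.Frac`:
common divisors, and counting by halves). The pairs `F_i(m_i)` are taken with large and uneven multiplicities, so that the size of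
the exceptional set says nothing about them; they are treated by the tool `Pool.Agent.U405.RS` of helper405 (a thin set has few
multiples of each `n ≤ x^δ`, Rankin's method, fibres over slabs).
-/

set_option autoImplicit false

namespace Pool.Agent.Results.MP_26ad15_nt.ThinTuples

open Pool.Agent.U405.RS
open Pool.Agent.Results.MP_26ad15_nt.RationalParameters (values)

/-- the larger entry -/
def H (w : Fin 2 → ℕ) : ℕ := Finset.univ.sup w

/-- the quotient of the entries -/
def quotient (w : Fin 2 → ℕ) : ℚ := (w 0 : ℚ) / (w 1 : ℚ)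

/-- If the quotient `q` of `w` is in `[a, b]`, then every nonzero polynomial in `n + 1` variables of degree at most `d` in each
variable with integer coefficients of absolute value at most `H ^ A` takes at `π`, `Γ(α_j q + γ_j)` a value of absolute value
larger than `H ^ (-B)`. -/
def Free {n : ℕ} (α γ : Fin n → ℝ) (d : ℕ) (a b A B : ℝ) (w : Fin 2 → ℕ) : Prop :=
  a ≤ quotient w → quotient w ≤ b → ∀ P : MvPolynomial (Option (Fin n)) ℤ, P ≠ 0 → (∀ x, P.degreeOf x ≤ d) →
    (∀ s, |((P.coeff s : ℤ) : ℝ)| ≤ (H w : ℝ) ^ A) → (H w : ℝ) ^ (-B) < |MvPolynomial.aeval (values α γ (quotient w)) P|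

/-- **Theorem.** Let `a < b`, `α_j > 0`, `α_j a + γ_j > 0`, let no nonzero integer vector `m` satisfy both `∑ m_j α_j = 0` and
`∑ m_j α_j log α_j = 0`, and let `d` and `A ≥ 0` be given. There is `B` such that for all pairs `F` of functions in the class `PM`
and all `U`, with `c = 1 / (2 ((d + 1)^(n + 1) + 1))`, in the sense of `ThinAll c F U` (with a saving of `(log x)^U`, for
almost all `m` in all products of 2 sets, each one the set of the shifted primes `p + a_i`, `p ≤ x`, or an interval
`(u, u + h]`, `u ≤ x`, `x^τ ≤ h ≤ x`, whenever `0 < τ ≤ 1`, `2 τ > 2 - c`): both `F_i(m_i)` are at least `2` and the pair of the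
`F_i(m_i)` is free. Euler's function, the sum of the divisors and the identity are in the class. -/
theorem result :
    (∀ (n d : ℕ) (α γ : Fin n → ℝ), (∀ j, 0 < α j) →
      (∀ m : Fin n → ℤ, ∑ j, (m j : ℝ) * α j = 0 → ∑ j, (m j : ℝ) * (α j * Real.log (α j)) = 0 → m = 0) →
      ∀ a b A : ℝ, a < b → (∀ j, 0 < α j * a + γ j) → 0 ≤ A → ∃ B : ℝ, ∀ F : Fin 2 → ℕ → ℕ, (∀ i, PM (F i)) → ∀ U : ℕ,
        ThinAll (1 / (2 * (((d : ℝ) + 1) ^ (n + 1) + 1))) F U
          (fun (_ : Unit) (w : Fin 2 → ℕ) => (∀ i, 2 ≤ w i) ∧ Free α γ d a b A B w)) ∧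
    (PM Nat.totient ∧ PM (fun m => ∑ d ∈ m.divisors, d) ∧ PM (fun m => m)) := by
  refine ⟨fun n d α γ hα hH a b A hab ha hA => ?_, examplesT⟩
  obtain ⟨B, C, -, -, h⟩ := Pool.Agent.U951.TR.Gam.input d α γ hα hH hab ha hA
  refine ⟨B, fun F hF U => thinAll_two (by omega) hF (Pool.Agent.U951.TR.Gam.cn_pos n d) C
    (fun (_ : Unit) (w : Fin 2 → ℕ) => Free α γ d a b A B w) (fun _ X hX => ?_) U⟩
  refine le_trans (Nat.cast_le.2 (Set.ncard_le_ncard ?_ ?_)) (h X hX 2)
  · rintro w ⟨hw, hnot⟩
    have hq : (((w 0 : ℕ) : ℤ) : ℚ) / (((w 1 : ℕ) : ℤ) : ℚ) = quotient w := by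
      simp only [quotient, Int.cast_natCast]
    have hH : Pool.Agent.U951.TR.Gam.ht (fun i => (w i : ℤ)) = H w := by
      simp only [Pool.Agent.U951.TR.Gam.ht, H, Int.natAbs_natCast]
    unfold Free at hnot
    push Not at hnot
    obtain ⟨h1, h1', P, h2, h3, h4, h5⟩ := hnot
    refine ⟨hw, ?_, ?_, ?_⟩
    · have := (hw 1).1
      have h0 : w 1 ≠ 0 := by omega
      show ((w 1 : ℕ) : ℤ) ≠ 0
      exact_mod_cast h0
    · show a ≤ (((((w 0 : ℕ) : ℤ) : ℚ) / (((w 1 : ℕ) : ℤ) : ℚ) : ℚ) : ℝ) ∧ _
      rw [hq]
      exact ⟨h1, h1'⟩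
    · show Pool.Agent.U951.TR.Gam.Rel α γ d ((((w 0 : ℕ) : ℤ) : ℚ) / (((w 1 : ℕ) : ℤ) : ℚ)) _ _
      rw [hq, hH]
      exact ⟨P, h2, h3, h4, h5⟩
  · apply (Set.Finite.pi' fun _ : Fin 2 => Set.finite_Icc 0 X).subset
    rintro w ⟨hw, -⟩ i
    exact ⟨Nat.zero_le _, (hw i).2⟩

end Pool.Agent.Results.MP_26ad15_nt.ThinTuples
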